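import Mathlib

/-!
# Commuting real matrices of size at least three never act minimally off the origin
-/

namespace Pool.Agent.Results.MP_336050_an.NoMinimalTuple

open Matrix

/-- The orbit of `x` under the tuple `(A_1, …, A_m)`: all vectors
`A_1 ^ k_1 A_2 ^ k_2 ⋯ A_m ^ k_m x` with `k_1, …, k_m ≥ 0`. -/
def Orb {n m : ℕ} (A : Fin m → Matrix (Fin n) (Fin n) ℝ) (x : Fin n → ℝ) : Set (Fin n → ℝ) :=
  {y | ∃ k : Fin m → ℕ, y = (List.ofFn fun i => A i ^ k i).prod *ᵥ x}

/-- A commuting family of complex endomorphisms has a common eigenvector. -/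
lemma exists_common_eigenvector {V ι : Type*} [AddCommGroup V] [Module ℂ V]
    [FiniteDimensional ℂ V] [Nontrivial V] [Fintype ι] (f : ι → Module.End ℂ V)
    (hf : ∀ i j, Commute (f i) (f j)) :
    ∃ v : V, v ≠ 0 ∧ ∀ i, ∃ μ : ℂ, f i v = μ • v := by
  classical
  have key : ∀ s : Finset ι, ∃ W : Submodule ℂ V, W ≠ ⊥ ∧ (∀ i, ∀ w ∈ W, f i w ∈ W) ∧
      ∀ i ∈ s, ∃ μ : ℂ, ∀ w ∈ W, f i w = μ • w := by
    intro s
    induction s using Finset.induction_on with
    | empty => exact ⟨⊤, top_ne_bot, fun _ _ _ => trivial, fun i hi => absurd hi (by simp)⟩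
    | insert a s ha ih =>
      obtain ⟨W, hW, hinv, hs⟩ := ih
      have : Nontrivial W := (Submodule.nontrivial_iff_ne_bot).2 hW
      let g : Module.End ℂ W := (f a).restrict (hinv a)
      obtain ⟨μ, hμ⟩ := Module.End.exists_eigenvalue g
      obtain ⟨w, hw⟩ := hμ.exists_hasEigenvector
      refine ⟨W ⊓ Module.End.eigenspace (f a) μ, ?_, ?_, ?_⟩
      · rw [Submodule.ne_bot_iff]
        refine ⟨w, ⟨w.2, ?_⟩, fun h => hw.2 (Subtype.ext h)⟩
        have h1 := hw.apply_eq_smul
        rw [SetLike.mem_coe, Module.End.mem_eigenspace_iff]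
        exact congrArg Subtype.val h1
      · rintro i v ⟨hv1, hv2⟩
        refine ⟨hinv i v hv1, ?_⟩
        rw [SetLike.mem_coe, Module.End.mem_eigenspace_iff] at hv2 ⊢
        have hc : f a (f i v) = f i (f a v) := by
          have := (hf a i).eq
          exact congrArg (fun T : Module.End ℂ V => T v) this
        rw [hc, hv2, map_smul]
      · intro i hi
        rcases Finset.mem_insert.1 hi with rfl | hi
        · refine ⟨μ, fun v hv => ?_⟩
          have := hv.2
          rwa [SetLike.mem_coe, Module.End.mem_eigenspace_iff] at this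
        · obtain ⟨ν, hν⟩ := hs i hi
          exact ⟨ν, fun v hv => hν v hv.1⟩
  obtain ⟨W, hW, -, h⟩ := key Finset.univ
  obtain ⟨v, hv, hv0⟩ := (Submodule.ne_bot_iff W).1 hW
  refine ⟨v, hv0, fun i => ?_⟩
  obtain ⟨μ, hμ⟩ := h i (Finset.mem_univ i)
  exact ⟨μ, hμ v hv⟩

/-- Commuting real matrices of positive size leave invariant a nonzero subspace of dimension at
most two. -/
lemma exists_invariant {n m : ℕ} (hn : 1 ≤ n) (A : Fin m → Matrix (Fin n) (Fin n) ℝ)
    (hA : ∀ i j, Commute (A i) (A j)) :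
    ∃ W : Submodule ℝ (Fin n → ℝ), Module.finrank ℝ W ≤ 2 ∧ (∃ x ∈ W, x ≠ 0) ∧
      ∀ i, ∀ w ∈ W, A i *ᵥ w ∈ W := by
  have : Nonempty (Fin n) := ⟨⟨0, hn⟩⟩
  let f : Fin m → Module.End ℂ (Fin n → ℂ) := fun i =>
    Matrix.mulVecLin ((A i).map (algebraMap ℝ ℂ))
  have hf : ∀ i j, Commute (f i) (f j) := by
    intro i j
    show f i * f j = f j * f i
    have h1 : (A i).map (algebraMap ℝ ℂ) * (A j).map (algebraMap ℝ ℂ)
        = (A j).map (algebraMap ℝ ℂ) * (A i).map (algebraMap ℝ ℂ) := by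
      rw [← Matrix.map_mul, ← Matrix.map_mul, (hA i j).eq]
    show (Matrix.mulVecLin _) ∘ₗ (Matrix.mulVecLin _) = (Matrix.mulVecLin _) ∘ₗ (Matrix.mulVecLin _)
    rw [← Matrix.mulVecLin_mul, ← Matrix.mulVecLin_mul, h1]
  obtain ⟨z, hz, hev⟩ := exists_common_eigenvector f hf
  choose μ hμ using hev
  have hmul : ∀ i k, (∑ j, (A i k j : ℂ) * z j) = μ i * z k := by
    intro i k
    have := congrFun (hμ i) k
    simpa [f, Matrix.mulVec, dotProduct] using this
  let x : Fin n → ℝ := fun k => (z k).re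
  let y : Fin n → ℝ := fun k => (z k).im
  have hx : ∀ i, A i *ᵥ x = (μ i).re • x - (μ i).im • y := by
    intro i; ext k
    have := congrArg Complex.re (hmul i k)
    simpa [x, y, Matrix.mulVec, dotProduct, Complex.mul_re] using this
  have hy : ∀ i, A i *ᵥ y = (μ i).re • y + (μ i).im • x := by
    intro i; ext k
    have := congrArg Complex.im (hmul i k)
    simpa [x, y, Matrix.mulVec, dotProduct, Complex.mul_im] using this
  have hxy : x ≠ 0 ∨ y ≠ 0 := by
    by_contra h
    push Not at h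
    apply hz
    ext k
    exact Complex.ext (congrFun h.1 k) (congrFun h.2 k)
  refine ⟨Submodule.span ℝ {x, y}, ?_, ?_, ?_⟩
  · exact (finrank_span_le_card (R := ℝ) ({x, y} : Set (Fin n → ℝ))).trans (by
      simpa using Finset.card_le_two (a := x) (b := y))
  · rcases hxy with h | h
    · exact ⟨x, Submodule.subset_span (by simp), h⟩
    · exact ⟨y, Submodule.subset_span (by simp), h⟩
  · intro i w hw
    obtain ⟨a, b, rfl⟩ := Submodule.mem_span_pair.1 hw
    rw [Matrix.mulVec_add, Matrix.mulVec_smul, Matrix.mulVec_smul, hx, hy]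
    refine Submodule.mem_span_pair.2 ⟨a * (μ i).re + b * (μ i).im, b * (μ i).re - a * (μ i).im, ?_⟩
    module

/-- For every `n ≥ 3`, no tuple (of any length `m`, in particular of length `n`) of pairwise
commuting real `n × n` matrices has all non-zero vectors hypercyclic. -/
theorem result : ∀ n : ℕ, 3 ≤ n → ∀ m : ℕ, ∀ A : Fin m → Matrix (Fin n) (Fin n) ℝ,
    (∀ i j, Commute (A i) (A j)) → ∃ x : Fin n → ℝ, x ≠ 0 ∧ ¬ Dense (Orb A x) := by
  intro n hn m A hA
  obtain ⟨W, hdim, ⟨x, hxW, hx0⟩, hinv⟩ := exists_invariant (by omega) A hA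
  refine ⟨x, hx0, fun hd => ?_⟩
  have hpow : ∀ (i : Fin m) (k : ℕ), ∀ w ∈ W, (A i ^ k) *ᵥ w ∈ W := by
    intro i k
    induction k with
    | zero => intro w hw; simpa using hw
    | succ k ih =>
      intro w hw
      rw [pow_succ, ← Matrix.mulVec_mulVec]
      exact ih _ (hinv i w hw)
  have hprod : ∀ l : List (Matrix (Fin n) (Fin n) ℝ), (∀ B ∈ l, ∀ w ∈ W, B *ᵥ w ∈ W) →
      ∀ w ∈ W, l.prod *ᵥ w ∈ W := by
    intro l
    induction l with
    | nil => intro _ w hw; simpa using hw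
    | cons B l ih =>
      intro h w hw
      rw [List.prod_cons, ← Matrix.mulVec_mulVec]
      exact h B (by simp) _ (ih (fun C hC => h C (by simp [hC])) w hw)
  have hsub : Orb A x ⊆ (W : Set (Fin n → ℝ)) := by
    rintro y ⟨k, rfl⟩
    refine hprod _ ?_ x hxW
    intro B hB
    obtain ⟨i, rfl⟩ := (List.mem_ofFn' _ _).1 hB
    exact hpow i (k i)
  have hcl : IsClosed (W : Set (Fin n → ℝ)) := Submodule.closed_of_finiteDimensional W
  have htop : (W : Set (Fin n → ℝ)) = Set.univ := by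
    have := (hd.mono hsub).closure_eq
    rwa [hcl.closure_eq] at this
  have h1 : W = ⊤ := by
    apply SetLike.coe_injective
    rw [htop]; rfl
  rw [h1, finrank_top, Module.finrank_fin_fun] at hdim
  omega

end Pool.Agent.Results.MP_336050_an.NoMinimalTuple
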